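import Pool.Agent.Lib.MP_1a91b9_nuX.DX.Cj

/-!
# The order of the group of points is prime to `ℓ` (curves `y² = x³ + D`)
-/

set_option autoImplicit false

namespace Pool.Agent.Lib.MP_1a91b9_nuX.PL

variable [Pool.Agent.Lib.MP_1a91b9_nuT.CD]

open NumberField IsDedekindDomain WeierstrassCurve Pool.Agent.Lib.MP_1a91b9_nuT
open Pool.Agent.Lib.MP_1a91b9_nuX.DB Pool.Agent.Lib.MP_1a91b9_nuX.DX
open scoped Classical

universe u

theorem base_eq (F : Type*) [Field F] [Algebra K F] :
    Affine.baseChange (E K) F = (E F).toAffine := by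
  have h : (E K).map (algebraMap K F) = E F := by
    ext <;> simp [E]
  exact h

/-- comparison of the two groups of points -/
theorem pt_card (F : Type*) [Field F] [Algebra K F] (hf : Finite (Pt F)) :
    Finite (E F).toAffine.Point ∧ Nat.card (E F).toAffine.Point = Nat.card (Pt F) := by
  have h : ∀ V : Affine F, V = Affine.baseChange (E K) F →
      Finite V.Point ∧ Nat.card V.Point = Nat.card (Pt F) := by
    rintro _ rfl
    exact ⟨hf, rfl⟩
  exact h _ (base_eq F).symm

section
variable {ϖ : 𝓞 K} {ℓ q : ℕ} (h : PD ϖ ℓ q) {F : Type u} [Field F] [NumberField F] [Algebra K F]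
  [DecidableEq F]
include h

/-- a finite group on which `ϖ` and its conjugate are surjective has an order prime to `ℓ` -/
theorem coprime_card (hf : Finite (Pt F)) (h1 : ∀ P : Pt F, ∃ P' : Pt F, sm F (cj ϖ) P' = P)
    (h2 : ∀ P : Pt F, ∃ P' : Pt F, sm F ϖ P' = P) : (Nat.card (Pt F)).Coprime ℓ := by
  rw [Nat.coprime_comm, Nat.Prime.coprime_iff_not_dvd h.hl]
  intro hd
  have : Fact ℓ.Prime := ⟨h.hl⟩
  obtain ⟨R, hR⟩ := exists_prime_addOrderOf_dvd_card' (G := Pt F) ℓ hd
  have hR0 : R ≠ 0 := by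
    rintro rfl
    rw [addOrderOf_zero] at hR
    exact h.hl.one_lt.ne hR
  have hℓ : ℓ • R = 0 := by
    rw [← hR]
    exact addOrderOf_nsmul_eq_zero R
  have hq : q • R = 0 := by
    rcases h.alt with e | e
    · rw [e]; exact hℓ
    · rw [e, pow_two, mul_nsmul, hℓ, smul_zero]
  have i1 : Function.Injective (sm F (cj ϖ)) := Finite.injective_iff_surjective.2 h1
  have i2 : Function.Injective (sm F ϖ) := Finite.injective_iff_surjective.2 h2
  apply hR0
  apply i1
  apply i2
  rw [map_zero, map_zero]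
  have e1 : sm F ϖ (sm F (cj ϖ) R) = sm F (ϖ * cj ϖ) R := by
    rw [map_mul]
    rfl
  rw [e1, mul_cj, h.norm, sm_nat, hq]

end

end Pool.Agent.Lib.MP_1a91b9_nuX.PL
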