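import Pool.Agent.Lib.MP_1a91b9_nuT.CT.Lf
import Pool.Agent.Lib.MP_1a91b9_nuT.CT.La

/-!
# The minimal models of a curve with an integral equation

`minModel_of`: the minimal model of `W` at `v` in terms of an isomorphic curve `D • W`, the scaling
factor is `CT.uu W D v`. `uu_one`: if `D • W` has an equation with coefficients in `ℤ` whose
discriminant is a unit at `v`, then `uu W D v` is a unit.
-/

set_option autoImplicit false

namespace Pool.Agent.Lib.MP_1a91b9_nuX.PL

variable [Pool.Agent.Lib.MP_1a91b9_nuT.CD]

open NumberField IsDedekindDomain WeierstrassCurve WithZero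
open Pool.Agent.Lib.MP_1a91b9_nuT.CT (uu)
open Pool.Agent.Lib.MP_1a91b9_nuT.S9 (tam minModel minChange normFactor)
open scoped Classical

variable {N : Type*} [Field N] [NumberField N]

theorem minModel_of {W W' : WeierstrassCurve N} {D : VariableChange N} (hD : D • W = W')
    (v : HeightOneSpectrum (𝓞 N)) : ∃ C : VariableChange (v.adicCompletion N),
      (C.u : v.adicCompletion N) = uu W D v ∧
      minModel W v = C • W'.baseChange (v.adicCompletion N) := by
  have eC : (D.map (algebraMap N (v.adicCompletion N))) • (W.baseChange (v.adicCompletion N)) =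
      W'.baseChange (v.adicCompletion N) := by
    rw [← hD]
    exact (WeierstrassCurve.map_variableChange _ _ _)
  refine ⟨minChange W v * (D.map (algebraMap N (v.adicCompletion N)))⁻¹, ?_, ?_⟩
  · simp [uu, VariableChange.mul_def, VariableChange.inv_def, div_eq_mul_inv]
  · rw [← eC, mul_smul, inv_smul_smul]
    rfl

theorem uu_one {W : WeierstrassCurve N} {D : VariableChange N} {I : WeierstrassCurve ℤ}
    (hD : D • W = I.map (Int.castRingHom N)) (v : HeightOneSpectrum (𝓞 N))
    (h6 : v.valuation N ((I.Δ : ℤ) : N) = 1) : Valued.v (uu W D v) = (1 : ℤᵐ⁰) := by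
  obtain ⟨C, hCu, hC⟩ := minModel_of hD v
  have hval : ∀ x : N, Valued.v (algebraMap N (v.adicCompletion N) x) = v.valuation N x := fun x =>
    HeightOneSpectrum.valuedAdicCompletion_eq_valuation' v x
  have hm : IsMinimal (v.adicCompletionIntegers N)
      (C • (I.map (Int.castRingHom N)).baseChange (v.adicCompletion N)) := by
    rw [← hC]
    exact Pool.Agent.Lib.MP_1a91b9_nuT.S9.minModel_isMinimal W v
  have hI : (I.map (Int.castRingHom N)).baseChange (v.adicCompletion N) =
      (I.map (Int.castRingHom (v.adicCompletionIntegers N))).baseChange (v.adicCompletion N) := by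
    rw [WeierstrassCurve.baseChange, WeierstrassCurve.baseChange, WeierstrassCurve.map_map,
      WeierstrassCurve.map_map]
    exact congrArg I.map (Subsingleton.elim _ _)
  have hΔ : Valued.v ((I.map (Int.castRingHom N)).baseChange (v.adicCompletion N)).Δ = 1 := by
    rw [WeierstrassCurve.baseChange, WeierstrassCurve.map_Δ, WeierstrassCurve.map_Δ, eq_intCast,
      hval]
    exact h6
  rw [← hCu]
  exact (Pool.Agent.Lib.MP_1a91b9_nuT.CT.unit_min _ _ hI hΔ C hm).2

end Pool.Agent.Lib.MP_1a91b9_nuX.PL
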