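import Pool.Agent.Lib.MP_1a91b9_nuX.PL.NmB
import Pool.Agent.Lib.MP_1a91b9_nuX.RG.Per
import Pool.Agent.Lib.MP_1a91b9_nuT3.R3.Defs

/-!
# The period of the curves with the invariant of `E`

`period W = (∏ normFactor) * ∏ perAt W = κ ∏ perAt (cv a b)` with `κ` a unit at `ℓ`
(`norm_int`, `RG.prod_iso`). The product is `perR ^ r₁ (sd ‖O‖²) ^ r₂`, `O = Om / x`, `perR = k O y` with
`k = 1, 2` and `y ∈ 𝓞 K` of norm prime to `ℓ`. Above `ℓ` the numbers `k`, `y`, `sd`, `x` are units (`x`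
because `4 a³ + 27 b² = x¹² (4 A³ + 27 B²)`), `‖O‖` has the value of `O`.
-/

set_option autoImplicit false

namespace Pool.Agent.Lib.MP_1a91b9_nuX.PL

variable [Pool.Agent.Lib.MP_1a91b9_nuT.CD]

open NumberField IsDedekindDomain WeierstrassCurve WithZero Pool.Agent.Lib.MP_1a91b9_nuT
open Pool.Agent.Lib.MP_1a91b9_nuT.S9 (tam minModel minChange normFactor period)
open Pool.Agent.Lib.MP_1a91b9_nuT.PL (Ab)
open Pool.Agent.Lib.MP_1a91b9_nuT.Per (cv cv_map perR perAt prod_cv prod_cv_pos perR_cv val_norm)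
open Pool.Agent.Lib.MP_1a91b9_nuT.S4 (val_integral val_eq_one_of_mul)
open scoped Classical

variable {N : Type*} [Field N] [NumberField N]

/-- the integral equation -/
def cvZ (a b : ℤ) : WeierstrassCurve ℤ := ⟨0, 0, 0, a, b⟩

omit [Pool.Agent.Lib.MP_1a91b9_nuT.CD] in
theorem cvZ_map (F : Type*) [Field F] (a b : ℤ) :
    (cvZ a b).map (Int.castRingHom F) = cv (a : F) (b : F) := by
  ext
  · exact map_zero (Int.castRingHom F)
  · exact map_zero (Int.castRingHom F)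
  · exact map_zero (Int.castRingHom F)
  · rfl
  · rfl

omit [Pool.Agent.Lib.MP_1a91b9_nuT.CD] in
theorem cvZ_Δ (a b : ℤ) : (cvZ a b).Δ = -16 * (4 * a ^ 3 + 27 * b ^ 2) := by
  rw [WeierstrassCurve.Δ, WeierstrassCurve.b₂, WeierstrassCurve.b₄, WeierstrassCurve.b₆,
    WeierstrassCurve.b₈, cvZ]
  ring

section val

variable {ℓ : ℕ} {A : ValuationSubring ℂ}

private theorem NmC_cop (hℓ : ℓ.Prime) {n : ℤ} (h : ¬ (ℓ : ℤ) ∣ n) : IsCoprime n (ℓ : ℤ) :=
  ((Nat.prime_iff_prime_int.1 hℓ).coprime_iff_not_dvd.2 h).symm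

private theorem NmC_embK (hA : Ab ℓ A) {y : 𝓞 K}
    (h : (Ideal.absNorm (Ideal.span {y})).Coprime ℓ) : A.valuation (embK (y : K)) = 1 := by
  have h1 : IsIntegral ℤ (embK (y : K)) :=
    (RingOfIntegers.isIntegral_coe y).map (embK.restrictScalars ℤ)
  have h2 : IsIntegral ℤ (embK ((cj y : 𝓞 K) : K)) :=
    (RingOfIntegers.isIntegral_coe (cj y)).map (embK.restrictScalars ℤ)
  refine val_eq_one_of_mul A (val_integral A h1) (val_integral A h2) ?_
  have e : embK (y : K) * embK ((cj y : 𝓞 K) : K) =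
      ((Ideal.absNorm (Ideal.span {y}) : ℕ) : ℂ) := by
    have h3 := congrArg (fun t : 𝓞 K => embK (algebraMap (𝓞 K) K t)) (mul_cj y)
    simp only [map_mul, map_natCast] at h3
    exact h3
  rw [e]
  exact hA.nat h

private theorem NmC_sd (hA : Ab ℓ A) (h : IsCoprime (CD.tr ^ 2 - 4 * CD.nm) (ℓ : ℤ)) :
    A.valuation (sd : ℂ) = 1 := by
  have h1 := congrArg A.valuation sdC_sq
  have h2 : IsCoprime (4 * CD.nm - CD.tr ^ 2) (ℓ : ℤ) := by
    have := h.neg_left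
    rwa [neg_sub] at this
  rw [map_pow, hA.int h2] at h1
  exact (pow_eq_one_iff_of_nonneg zero_le (by norm_num)).1 h1

private theorem NmC_x (hA : Ab ℓ A) {a b : ℤ} {x : K}
    (ha : (a : ℂ) = (CD.A : ℂ) * embK x ^ 4) (hb : (b : ℂ) = (CD.B : ℂ) * embK x ^ 6)
    (h1 : IsCoprime (4 * a ^ 3 + 27 * b ^ 2) (ℓ : ℤ))
    (h2 : IsCoprime (4 * CD.A ^ 3 + 27 * CD.B ^ 2) (ℓ : ℤ)) : A.valuation (embK x) = 1 := by
  have e : ((4 * a ^ 3 + 27 * b ^ 2 : ℤ) : ℂ) =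
      embK x ^ 12 * ((4 * CD.A ^ 3 + 27 * CD.B ^ 2 : ℤ) : ℂ) := by
    push_cast
    rw [ha, hb]
    ring
  have h3 := congrArg A.valuation e
  rw [map_mul, map_pow, hA.int h1, hA.int h2, mul_one] at h3
  exact (pow_eq_one_iff_of_nonneg zero_le (by norm_num)).1 h3.symm

end val

theorem period_cv {a b : ℤ} {x : K} (hx0 : x ≠ 0) (ha : (a : ℂ) = (CD.A : ℂ) * embK x ^ 4)
    (hb : (b : ℂ) = (CD.B : ℂ) * embK x ^ 6) {ℓ : ℕ} (hℓ : ℓ.Prime)
    (h1 : ¬ (ℓ : ℤ) ∣ 2 * (4 * a ^ 3 + 27 * b ^ 2)) (hg : ¬ (ℓ : ℤ) ∣ CD.bad)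
    {W : WeierstrassCurve N} {D : VariableChange N} (hD : D • W = cv (a : N) (b : N)) :
    (period W ≠ 0) ∧ (∀ A : ValuationSubring ℂ, Ab ℓ A →
      A.valuation ((period W : ℝ) : ℂ) = A.valuation Om ^ Module.finrank ℚ N) := by
  have hp : Prime (ℓ : ℤ) := Nat.prime_iff_prime_int.1 hℓ
  -- the divisors of the bad integer
  have hbad : ¬ (ℓ : ℤ) ∣ 6 * (4 * CD.A ^ 3 + 27 * CD.B ^ 2) * CD.nm * (CD.tr ^ 2 - 4 * CD.nm) :=
    fun h => hg (h.trans CD.bad_dvd)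
  have hdd : ¬ (ℓ : ℤ) ∣ CD.tr ^ 2 - 4 * CD.nm := fun h => hbad (h.mul_left _)
  have hE : ¬ (ℓ : ℤ) ∣ 4 * CD.A ^ 3 + 27 * CD.B ^ 2 := fun h =>
    hbad (((h.mul_left 6).mul_right _).mul_right _)
  have h2 : ¬ (ℓ : ℤ) ∣ 2 := fun h => h1 (h.mul_right _)
  have hab : ¬ (ℓ : ℤ) ∣ 4 * a ^ 3 + 27 * b ^ 2 := fun h => h1 (h.mul_left _)
  have hΔ : ¬ (ℓ : ℤ) ∣ (cvZ a b).Δ := by
    rw [cvZ_Δ]
    intro h
    rcases hp.dvd_or_dvd h with h | h
    · have e : (-16 : ℤ) = -(2 ^ 4) := by norm_num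
      rw [e, dvd_neg] at h
      exact h2 (hp.dvd_of_dvd_pow h)
    · exact hab h
  have hΔ0 : (cvZ a b).Δ ≠ 0 := fun h => hΔ (by rw [h]; exact dvd_zero _)
  have hD' : D • W = (cvZ a b).map (Int.castRingHom N) := by rw [hD, cvZ_map]
  obtain ⟨κ, hκ, hκ2⟩ := norm_int hΔ0 hD' hℓ hΔ
  have hC := Pool.Agent.Lib.MP_1a91b9_nuX.RG.sc_CR hx0 ha hb
  have h3 := Pool.Agent.Lib.MP_1a91b9_nuX.RG.prod_iso D hD
  have hper : period W = (κ : ℝ) * ∏ v : InfinitePlace N, perAt (cv (a : N) (b : N)) v := by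
    rw [period, hκ2, h3]
    ring
  have hpos := prod_cv_pos hC N
  constructor
  · have hne := Pool.Agent.Lib.MP_1a91b9_nuT3.S9.finprod_normFactor_ne W
    have hκ0 : (κ : ℝ) ≠ 0 := by
      intro h0
      rw [h0, zero_mul] at hκ2
      exact hne hκ2
    rw [hper]
    exact mul_ne_zero hκ0 hpos.ne'
  · intro A hA
    obtain ⟨-, k, y, hk, hy, e2, hyn⟩ := perR_cv hC
    have hxe : embK x ≠ 0 := (map_ne_zero_iff _ embK.injective).2 hx0
    have hvx := NmC_x hA ha hb (NmC_cop hℓ hab) (NmC_cop hℓ hE)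
    have hvO : A.valuation (Om / embK x) = A.valuation Om := by
      rw [map_div₀, hvx, div_one]
    have hvk : A.valuation (k : ℂ) = 1 := by
      rcases hk with rfl | rfl
      · rw [Nat.cast_one, map_one]
      · refine hA.nat ?_
        rw [Nat.coprime_comm, Nat.Prime.coprime_iff_not_dvd hℓ]
        intro h
        exact h2 (by exact_mod_cast h)
    have hvy : A.valuation (embK (y : K)) = 1 := by
      refine NmC_embK hA ?_
      rw [Nat.coprime_comm, Nat.Prime.coprime_iff_not_dvd hℓ]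
      exact hyn ℓ hℓ hdd
    have hvR : A.valuation ((perR (cv (a : ℝ) (b : ℝ)) : ℝ) : ℂ) = A.valuation Om := by
      rw [e2, map_mul, map_mul, hvk, hvy, one_mul, mul_one, hvO]
    have hvs := NmC_sd hA (NmC_cop hℓ hdd)
    have hvn : A.valuation ((‖Om / embK x‖ : ℝ) : ℂ) = A.valuation Om := by
      rw [val_norm hC, hvO]
    rw [hper, Complex.ofReal_mul, map_mul, Complex.ofReal_ratCast, hκ A hA, one_mul, prod_cv hC,
      Complex.ofReal_mul, map_mul, Complex.ofReal_pow, map_pow, hvR, Complex.ofReal_pow, map_pow,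
      Complex.ofReal_mul, map_mul, hvs, one_mul, Complex.ofReal_pow, map_pow, hvn, ← pow_mul,
      ← pow_add, InfinitePlace.card_add_two_mul_card_eq_rank N]

end Pool.Agent.Lib.MP_1a91b9_nuX.PL
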